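import Pool.Agent.P8H70.TR.Stm2

/-!
# Package B4 of project TR (statement by helper70): a nontrivial trigonometric sum modulo `q`
-/

set_option autoImplicit false

open Complex Finset ComplexConjugate

namespace Pool.Agent.P8H41.TR

open Pool.Agent.P8H70.TR

/-- `|∑ exp (i y)| ≤ N - (5/18) ∑ y²` if `|y| ≤ 1` and `∑ y = 0`. -/
theorem key {ι : Type*} [Fintype ι] (y : ι → ℝ) (h1 : ∀ i, |y i| ≤ 1) (h0 : ∑ i, y i = 0) :
    ‖∑ i, cexp (((y i : ℝ) : ℂ) * I)‖ ≤ (Fintype.card ι : ℝ) - 5 / 18 * ∑ i, y i ^ 2 := by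
  have hR : ∀ i, ‖cexp (((y i : ℝ) : ℂ) * I) - (1 + (y i : ℂ) * I - (y i : ℂ) ^ 2 / 2)‖ ≤
      2 / 9 * y i ^ 2 := by
    intro i
    have hn : ‖((y i : ℝ) : ℂ) * I‖ = |y i| := by
      rw [norm_mul, Complex.norm_I, mul_one, Complex.norm_real, Real.norm_eq_abs]
    have hb := Complex.exp_bound (x := ((y i : ℝ) : ℂ) * I) (by rw [hn]; exact h1 i)
      (n := 3) (by norm_num)
    have hs : ∑ m ∈ range 3, (((y i : ℝ) : ℂ) * I) ^ m / (m.factorial : ℂ) =
        1 + (y i : ℂ) * I - (y i : ℂ) ^ 2 / 2 := by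
      simp only [Finset.sum_range_succ, Finset.sum_range_zero, pow_zero, pow_one, Nat.factorial,
        mul_pow, Complex.I_sq]
      push_cast
      ring
    rw [hs, hn] at hb
    refine hb.trans ?_
    have h3 : |y i| ^ 3 ≤ y i ^ 2 := by
      have : |y i| ^ 3 = y i ^ 2 * |y i| := by
        rw [pow_succ, sq_abs]
      rw [this]
      have := sq_nonneg (y i)
      nlinarith [h1 i, abs_nonneg (y i)]
    have h4 : (((3 : ℕ).succ : ℝ) * ((Nat.factorial 3 : ℕ) * ((3 : ℕ) : ℝ) : ℝ)⁻¹) = 2 / 9 := by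
      simp [Nat.factorial]; norm_num
    rw [h4]
    nlinarith
  have hsplit : ∑ i, cexp (((y i : ℝ) : ℂ) * I) =
      ∑ i, (cexp (((y i : ℝ) : ℂ) * I) - (1 + (y i : ℂ) * I - (y i : ℂ) ^ 2 / 2)) +
      (((Fintype.card ι : ℝ) - (∑ i, y i ^ 2) / 2 : ℝ) : ℂ) := by
    rw [Finset.sum_sub_distrib]
    have : ∑ i, (1 + (y i : ℂ) * I - (y i : ℂ) ^ 2 / 2) =
        (((Fintype.card ι : ℝ) - (∑ i, y i ^ 2) / 2 : ℝ) : ℂ) := by
      rw [Finset.sum_sub_distrib, Finset.sum_add_distrib, ← Finset.sum_mul, ← Finset.sum_div]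
      have h0' : ∑ i, (y i : ℂ) = 0 := by exact_mod_cast congrArg (fun r : ℝ => (r : ℂ)) h0
      rw [h0']
      simp
    rw [this]; ring
  have hq : 0 ≤ (Fintype.card ι : ℝ) - (∑ i, y i ^ 2) / 2 := by
    have : ∑ i, y i ^ 2 ≤ ∑ _i : ι, (1 : ℝ) := Finset.sum_le_sum fun i _ => by
      have := h1 i
      rw [← sq_abs]
      nlinarith [abs_nonneg (y i)]
    simp at this
    have h0 : (0 : ℝ) ≤ Fintype.card ι := by positivity
    linarith
  rw [hsplit]
  refine (norm_add_le _ _).trans ?_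
  rw [Complex.norm_real, Real.norm_eq_abs, abs_of_nonneg hq]
  have : ‖∑ i, (cexp (((y i : ℝ) : ℂ) * I) - (1 + (y i : ℂ) * I - (y i : ℂ) ^ 2 / 2))‖ ≤
      2 / 9 * ∑ i, y i ^ 2 := by
    refine (norm_sum_le _ _).trans ?_
    rw [Finset.mul_sum]
    exact Finset.sum_le_sum fun i _ => hR i
  linarith

section
variable (q : ℕ) [NeZero q]

theorem abs_cs' (x : ZMod q) : |cs q x| ≤ 1 := by
  unfold cs ch
  exact (Complex.abs_re_le_norm _).trans (AddChar.norm_apply _ _).le

theorem cs_mul (u v : ZMod q) : cs q u * cs q v = (cs q (u + v) + cs q (u - v)) / 2 := by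
  unfold cs ch
  rw [sub_eq_add_neg, AddChar.map_add_eq_mul, AddChar.map_add_eq_mul, AddChar.map_neg_eq_conj]
  simp only [Complex.mul_re, Complex.conj_re, Complex.conj_im]
  ring

theorem cs_sum (m : ZMod q) : ∑ x : ZMod q, cs q (m * x) = if m = 0 then (q : ℝ) else 0 := by
  have h := AddChar.sum_mulShift (R' := ℂ) m (ZMod.isPrimitive_stdAddChar q)
  have h' := congrArg Complex.re h
  rw [Complex.re_sum] at h'
  unfold cs ch
  simp_rw [mul_comm m]
  rw [h']
  split_ifs <;> simp [ZMod.card]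

theorem cs_cs (a b : ZMod q) (hab : a + b ≠ 0) :
    ∑ x : ZMod q, cs q (a * x) * cs q (b * x) = if a = b then (q : ℝ) / 2 else 0 := by
  simp_rw [cs_mul]
  rw [← Finset.sum_div, Finset.sum_add_distrib]
  simp_rw [← add_mul, ← sub_mul]
  rw [cs_sum, cs_sum, if_neg hab]
  by_cases h : a = b
  · simp [h]
  · rw [if_neg h, if_neg (sub_ne_zero.2 h)]; simp
end

theorem cast_ne (q n a : ℕ) (hq : n < q) (ha : 1 ≤ a) (hn : a ≤ n) : (a : ZMod q) ≠ 0 := by
  intro h
  rw [ZMod.natCast_eq_zero_iff] at h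
  exact absurd (Nat.le_of_dvd (by omega) h) (by omega)

theorem cast_inj (q n a b : ℕ) (hq : n < q) (ha : a ≤ n) (hb : b ≤ n)
    (h : (a : ZMod q) = b) : a = b := by
  rw [ZMod.natCast_eq_natCast_iff] at h
  exact Nat.ModEq.eq_of_lt_of_lt h (by omega) (by omega)

theorem b4 : S_B4 := by
  intro q _ n a b c e hq ha ha' hb hb' hc hc' he he' hac hae habce
  set y : ZMod q → ℝ := fun x => (cs q (a * x) + cs q (b * x) - cs q (c * x) - cs q (e * x)) / 4
    with hy
  have hq0 : (0 : ℝ) < q := by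
    have : 0 < q := by omega
    exact_mod_cast this
  have h1 : ∀ x, |y x| ≤ 1 := by
    intro x
    have e1 := abs_le.1 (abs_cs' q (a * x))
    have e2 := abs_le.1 (abs_cs' q (b * x))
    have e3 := abs_le.1 (abs_cs' q (c * x))
    have e4 := abs_le.1 (abs_cs' q (e * x))
    rw [abs_le]
    simp only [hy]
    constructor <;> linarith [e1.1, e1.2, e2.1, e2.2, e3.1, e3.2, e4.1, e4.2]
  have hz : ∀ m : ℕ, 1 ≤ m → m ≤ n → ∑ x : ZMod q, cs q ((m : ZMod q) * x) = 0 := by
    intro m hm hm'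
    rw [cs_sum, if_neg (cast_ne q n m (by omega) hm hm')]
  have h0 : ∑ x, y x = 0 := by
    simp only [hy]
    rw [← Finset.sum_div, Finset.sum_sub_distrib, Finset.sum_sub_distrib, Finset.sum_add_distrib,
      hz a ha ha', hz b hb hb', hz c hc hc', hz e he he']
    simp
  have hprod : ∀ u v : ℕ, 1 ≤ u → u ≤ n → 1 ≤ v → v ≤ n →
      ∑ x : ZMod q, cs q ((u : ZMod q) * x) * cs q ((v : ZMod q) * x) =
        if u = v then (q : ℝ) / 2 else 0 := by
    intro u v hu hu' hv hv'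
    rw [cs_cs]
    · by_cases h : u = v
      · simp [h]
      · rw [if_neg h, if_neg]
        intro h'
        exact h (cast_inj q n u v (by omega) hu' hv' h')
    · have := cast_ne q (2 * n) (u + v) hq (by omega) (by omega)
      push_cast at this
      exact this
  have hsq : ∑ x, y x ^ 2 = (1 / 16) * (∑ x, cs q (a * x) * cs q (a * x) +
      ∑ x, cs q (b * x) * cs q (b * x) + ∑ x, cs q (c * x) * cs q (c * x) +
      ∑ x, cs q (e * x) * cs q (e * x) + 2 * ∑ x, cs q (a * x) * cs q (b * x) -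
      2 * ∑ x, cs q (a * x) * cs q (c * x) - 2 * ∑ x, cs q (a * x) * cs q (e * x) -
      2 * ∑ x, cs q (b * x) * cs q (c * x) - 2 * ∑ x, cs q (b * x) * cs q (e * x) +
      2 * ∑ x, cs q (c * x) * cs q (e * x)) := by
    simp only [Finset.mul_sum, ← Finset.sum_add_distrib, ← Finset.sum_sub_distrib]
    refine Finset.sum_congr rfl fun x _ => ?_
    simp only [hy]
    ring
  have hbc : b ≠ c := by omega
  have hbe : b ≠ e := by omega
  rw [hprod a a ha ha' ha ha', hprod b b hb hb' hb hb', hprod c c hc hc' hc hc',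
    hprod e e he he' he he', hprod a b ha ha' hb hb', hprod a c ha ha' hc hc',
    hprod a e ha ha' he he', hprod b c hb hb' hc hc', hprod b e hb hb' he he',
    hprod c e hc hc' he he', if_pos rfl, if_pos rfl, if_pos rfl, if_pos rfl, if_neg hac,
    if_neg hae, if_neg hbc, if_neg hbe] at hsq
  have hlow : (q : ℝ) / 8 ≤ ∑ x, y x ^ 2 := by
    rw [hsq]
    split_ifs <;> linarith
  have := key y h1 h0
  rw [ZMod.card] at this
  refine this.trans ?_
  linarith

end Pool.Agent.P8H41.TR
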